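import Pool.Agent.GT.DefsF

/-!
# Row PAR of block F: `addSubMap` computes `sym2x (P + Q) (P - Q)`
-/

set_option autoImplicit false

namespace Pool.Agent.GT.F.H81

open WeierstrassCurve MvPolynomial

section
variable {K : Type*} [Field K] (W : WeierstrassCurve K)

theorem asm_zero (x : Fin 3 → K) : (addSubMap W 0).eval x =
    x 0 ^ 2 - W.b₄ * x 0 * x 2 - W.b₆ * x 1 * x 2 - W.b₈ * x 2 ^ 2 := by
  simp [addSubMap]

theorem asm_one (x : Fin 3 → K) : (addSubMap W 1).eval x =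
    2 * x 1 * x 0 + W.b₂ * x 0 * x 2 + W.b₄ * x 1 * x 2 + W.b₆ * x 2 ^ 2 := by
  simp [addSubMap]

theorem asm_two (x : Fin 3 → K) : (addSubMap W 2).eval x = x 1 ^ 2 - 4 * x 0 * x 2 := by
  simp [addSubMap]

theorem vec3 {a b c k d e f : K}
    (h0 : a ^ 2 - W.b₄ * a * c - W.b₆ * b * c - W.b₈ * c ^ 2 = k * d)
    (h1 : 2 * b * a + W.b₂ * a * c + W.b₄ * b * c + W.b₆ * c ^ 2 = k * e)
    (h2 : b ^ 2 - 4 * a * c = k * f) (i : Fin 3) :
    (addSubMap W i).eval ![a, b, c] = k * (![d, e, f] : Fin 3 → K) i := by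
  fin_cases i
  · exact (asm_zero W ![a, b, c]).trans h0
  · exact (asm_one W ![a, b, c]).trans h1
  · exact (asm_two W ![a, b, c]).trans h2

/-- sum of the first coordinates of `P + Q` and `P - Q`, times `(x₁ - x₂)²` -/
theorem gen_sum {x₁ y₁ x₂ y₂ : K} (e₁ : W.toAffine.Equation x₁ y₁) (e₂ : W.toAffine.Equation x₂ y₂)
    (hx : x₁ ≠ x₂) :
    (x₁ - x₂) ^ 2 * (W.toAffine.addX x₁ x₂ ((y₁ - y₂) / (x₁ - x₂)) +
      W.toAffine.addX x₁ x₂ ((y₁ - W.toAffine.negY x₂ y₂) / (x₁ - x₂))) =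
      2 * (x₁ + x₂) * (x₁ * x₂) + W.b₂ * (x₁ * x₂) + W.b₄ * (x₁ + x₂) + W.b₆ := by
  rw [Affine.equation_iff] at e₁ e₂
  have hd : x₁ - x₂ ≠ 0 := sub_ne_zero.2 hx
  simp only [Affine.addX, Affine.negY, b₂, b₄, b₆]
  field_simp
  linear_combination 2 * e₁ + 2 * e₂

/-- product of the first coordinates of `P + Q` and `P - Q`, times `(x₁ - x₂)²` -/
theorem gen_prod {x₁ y₁ x₂ y₂ : K} (e₁ : W.toAffine.Equation x₁ y₁) (e₂ : W.toAffine.Equation x₂ y₂)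
    (hx : x₁ ≠ x₂) :
    (x₁ - x₂) ^ 2 * (W.toAffine.addX x₁ x₂ ((y₁ - y₂) / (x₁ - x₂)) *
      W.toAffine.addX x₁ x₂ ((y₁ - W.toAffine.negY x₂ y₂) / (x₁ - x₂))) =
      (x₁ * x₂) ^ 2 - W.b₄ * (x₁ * x₂) - W.b₆ * (x₁ + x₂) - W.b₈ := by
  rw [Affine.equation_iff] at e₁ e₂
  have hd : x₁ - x₂ ≠ 0 := sub_ne_zero.2 hx
  have h3 : (x₁ - x₂) ^ 2 * W.toAffine.addX x₁ x₂ ((y₁ - y₂) / (x₁ - x₂)) =
      ((x₁ ^ 3 + W.a₂ * x₁ ^ 2 + W.a₄ * x₁ + W.a₆) + (x₂ ^ 3 + W.a₂ * x₂ ^ 2 + W.a₄ * x₂ + W.a₆) -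
        (W.a₂ + x₁ + x₂) * (x₁ - x₂) ^ 2) -
      (2 * y₁ * y₂ + (W.a₁ * x₂ + W.a₃) * y₁ + (W.a₁ * x₁ + W.a₃) * y₂) := by
    simp only [Affine.addX]
    field_simp
    linear_combination e₁ + e₂
  have h4 : (x₁ - x₂) ^ 2 * W.toAffine.addX x₁ x₂ ((y₁ - W.toAffine.negY x₂ y₂) / (x₁ - x₂)) =
      ((x₁ ^ 3 + W.a₂ * x₁ ^ 2 + W.a₄ * x₁ + W.a₆) + (x₂ ^ 3 + W.a₂ * x₂ ^ 2 + W.a₄ * x₂ + W.a₆) -
        (W.a₂ + x₁ + x₂) * (x₁ - x₂) ^ 2) +
      (2 * y₁ * y₂ + (W.a₁ * x₂ + W.a₃) * y₁ + (W.a₁ * x₁ + W.a₃) * y₂) +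
        (W.a₁ * x₁ + W.a₃) * (W.a₁ * x₂ + W.a₃) := by
    simp only [Affine.addX, Affine.negY]
    field_simp
    linear_combination e₁ + e₂
  have hB : (2 * y₁ * y₂ + (W.a₁ * x₂ + W.a₃) * y₁ + (W.a₁ * x₁ + W.a₃) * y₂) *
      ((2 * y₁ * y₂ + (W.a₁ * x₂ + W.a₃) * y₁ + (W.a₁ * x₁ + W.a₃) * y₂) +
        (W.a₁ * x₁ + W.a₃) * (W.a₁ * x₂ + W.a₃)) =
      4 * (x₁ ^ 3 + W.a₂ * x₁ ^ 2 + W.a₄ * x₁ + W.a₆) * (x₂ ^ 3 + W.a₂ * x₂ ^ 2 + W.a₄ * x₂ + W.a₆) +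
      (x₁ ^ 3 + W.a₂ * x₁ ^ 2 + W.a₄ * x₁ + W.a₆) * (W.a₁ * x₂ + W.a₃) ^ 2 +
      (x₂ ^ 3 + W.a₂ * x₂ ^ 2 + W.a₄ * x₂ + W.a₆) * (W.a₁ * x₁ + W.a₃) ^ 2 := by
    linear_combination (4 * (y₂ ^ 2 + W.a₁ * x₂ * y₂ + W.a₃ * y₂) + (W.a₁ * x₂ + W.a₃) ^ 2) * e₁ +
      (4 * (x₁ ^ 3 + W.a₂ * x₁ ^ 2 + W.a₄ * x₁ + W.a₆) + (W.a₁ * x₁ + W.a₃) ^ 2) * e₂
  refine mul_left_cancel₀ (pow_ne_zero 2 hd) ?_
  generalize W.toAffine.addX x₁ x₂ ((y₁ - y₂) / (x₁ - x₂)) = X3 at *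
  generalize W.toAffine.addX x₁ x₂ ((y₁ - W.toAffine.negY x₂ y₂) / (x₁ - x₂)) = X4 at *
  have h5 : (x₁ - x₂) ^ 2 * ((x₁ - x₂) ^ 2 * (X3 * X4)) =
      ((x₁ - x₂) ^ 2 * X3) * ((x₁ - x₂) ^ 2 * X4) := by ring
  rw [h5, h3, h4]
  simp only [b₄, b₆, b₈]
  linear_combination -hB

theorem dbl_psi {x y : K} (e : W.toAffine.Equation x y) :
    (y - W.toAffine.negY x y) ^ 2 = 4 * x ^ 3 + W.b₂ * x ^ 2 + 2 * W.b₄ * x + W.b₆ := by
  rw [Affine.equation_iff] at e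
  simp only [Affine.negY, b₂, b₄, b₆]
  linear_combination 4 * e

theorem dbl_num {x y : K} (e : W.toAffine.Equation x y) :
    (3 * x ^ 2 + 2 * W.a₂ * x + W.a₄ - W.a₁ * y) ^ 2 +
      W.a₁ * (3 * x ^ 2 + 2 * W.a₂ * x + W.a₄ - W.a₁ * y) * (y - W.toAffine.negY x y) -
      (W.a₂ + 2 * x) * (y - W.toAffine.negY x y) ^ 2 =
    x ^ 4 - W.b₄ * x ^ 2 - 2 * W.b₆ * x - W.b₈ := by
  rw [Affine.equation_iff] at e
  simp only [Affine.negY, b₄, b₆, b₈]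
  linear_combination (-(W.a₁ ^ 2 + 4 * W.a₂ + 8 * x)) * e

end

section
variable {K : Type*} [Field K] [DecidableEq K] (W : WeierstrassCurve K)

/-- `P = Q` -/
theorem par_dbl (P : W.toAffine.Point) : ∃ c : K, c ≠ 0 ∧ ∀ i,
    (addSubMap W i).eval (P.sym2x P) = c * (P + P).sym2x 0 i := by
  rcases P with _ | ⟨x, y, h⟩
  · refine ⟨1, one_ne_zero, fun i => ?_⟩
    rw [← Affine.Point.zero_def, add_zero, Affine.Point.sym2x_zero_zero]
    exact vec3 W (by ring) (by ring) (by ring) i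
  · have e := h.1
    have hp := dbl_psi W e
    have hn := dbl_num W e
    rw [Affine.Point.sym2x_some_some]
    by_cases hy : y = W.toAffine.negY x y
    · rw [Affine.Point.add_self_of_Y_eq hy, Affine.Point.sym2x_zero_zero]
      have hy0 : y - W.toAffine.negY x y = 0 := sub_eq_zero.2 hy
      rw [hy0] at hp hn
      refine ⟨(3 * x ^ 2 + 2 * W.a₂ * x + W.a₄ - W.a₁ * y) ^ 2, ?_, fun i => ?_⟩
      · have h2 := (W.toAffine.nonsingular_iff x y).1 h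
        rcases h2.2 with h3 | h3
        · exact pow_ne_zero 2 (fun h4 => h3 (by linear_combination -h4))
        · exact absurd hy h3
      · exact vec3 W (by linear_combination -hn) (by linear_combination -hp) (by ring) i
    · rw [Affine.Point.add_self_of_Y_ne hy, Affine.Point.sym2x_some_zero]
      have hd : y - W.toAffine.negY x y ≠ 0 := sub_ne_zero.2 hy
      refine ⟨(y - W.toAffine.negY x y) ^ 2, pow_ne_zero 2 hd, fun i => ?_⟩
      refine vec3 W ?_ (by linear_combination -hp) (by ring) i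
      simp only [Affine.addX, Affine.slope_of_Y_ne rfl hy]
      generalize y - W.toAffine.negY x y = ps at *
      field_simp
      linear_combination -hn

theorem par (P Q : W.toAffine.Point) : ∃ c : K, c ≠ 0 ∧ ∀ i,
    (addSubMap W i).eval (P.sym2x Q) = c * (P + Q).sym2x (P - Q) i := by
  by_cases hPQ : P = Q
  · subst hPQ
    rw [sub_self]
    exact par_dbl W P
  by_cases hPQ' : P = -Q
  · have h1 : P + Q = 0 := by rw [hPQ']; exact neg_add_cancel Q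
    have h2 : P - Q = P + P := by
      rw [sub_eq_add_neg, ← hPQ']
    have h3 : P.sym2x Q = P.sym2x P := by
      rw [← Affine.Point.sym2x_neg_right P Q, ← hPQ']
    rw [h1, h2, h3, Affine.Point.sym2x_comm 0 (P + P)]
    exact par_dbl W P
  rcases P with _ | ⟨x₁, y₁, h₁⟩
  · rcases Q with _ | ⟨x₂, y₂, h₂⟩
    · exact absurd rfl hPQ
    · refine ⟨1, one_ne_zero, fun i => ?_⟩
      rw [← Affine.Point.zero_def, zero_add, zero_sub, Affine.Point.sym2x_neg_right,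
        Affine.Point.sym2x_zero_some, Affine.Point.sym2x_some_some]
      exact vec3 W (by ring) (by ring) (by ring) i
  · rcases Q with _ | ⟨x₂, y₂, h₂⟩
    · refine ⟨1, one_ne_zero, fun i => ?_⟩
      rw [← Affine.Point.zero_def, add_zero, sub_zero,
        Affine.Point.sym2x_some_zero, Affine.Point.sym2x_some_some]
      exact vec3 W (by ring) (by ring) (by ring) i
    · have hx : x₁ ≠ x₂ := by
        intro hx
        rcases (Affine.Point.X_eq_iff (h₁ := h₁) (h₂ := h₂)).1 hx with h | h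
        · exact hPQ h
        · exact hPQ' h
      refine ⟨(x₁ - x₂) ^ 2, pow_ne_zero 2 (sub_ne_zero.2 hx), fun i => ?_⟩
      have hs := gen_sum W h₁.1 h₂.1 hx
      have hp := gen_prod W h₁.1 h₂.1 hx
      have h3 : (Affine.Point.some x₁ y₁ h₁ : W.toAffine.Point) - Affine.Point.some x₂ y₂ h₂ =
          Affine.Point.some x₁ y₁ h₁ + (-Affine.Point.some x₂ y₂ h₂) := sub_eq_add_neg _ _
      rw [h3, Affine.Point.neg_some, Affine.Point.add_of_X_ne hx,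
        Affine.Point.add_of_X_ne hx, Affine.Point.sym2x_some_some, Affine.Point.sym2x_some_some,
        Affine.slope_of_X_ne hx, Affine.slope_of_X_ne hx]
      exact vec3 W (by linear_combination -hp) (by linear_combination -hs) (by ring) i

end

end Pool.Agent.GT.F.H81
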