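import Pool.Agent.Helper81_GTF.PAR

/-!
# Row SP of block F: the specialization homomorphism
-/

set_option autoImplicit false

namespace Pool.Agent.GT.F.H81

open WeierstrassCurve

section
variable {F : Type*} [Field F] [DecidableEq F] (W : WeierstrassCurve F)

theorem slope_two {x₁ x₂ y₁ y₂ : F} (e₁ : W.toAffine.Equation x₁ y₁)
    (e₂ : W.toAffine.Equation x₂ y₂) (hxy : ¬(x₁ = x₂ ∧ y₁ = W.toAffine.negY x₂ y₂)) :
    W.toAffine.slope x₁ x₂ y₁ y₂ * (x₁ - x₂) = y₁ - y₂ ∧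
    W.toAffine.slope x₁ x₂ y₁ y₂ * (y₁ - W.toAffine.negY x₂ y₂) =
      x₁ ^ 2 + x₁ * x₂ + x₂ ^ 2 + W.a₂ * (x₁ + x₂) + W.a₄ - W.a₁ * y₁ := by
  by_cases hx : x₁ = x₂
  · have hy : y₁ ≠ W.toAffine.negY x₂ y₂ := fun h => hxy ⟨hx, h⟩
    have hyy : y₁ = y₂ := Affine.Y_eq_of_Y_ne e₁ e₂ hx hy
    subst hx hyy
    have hd : y₁ - W.toAffine.negY x₁ y₁ ≠ 0 := sub_ne_zero.2 hy
    rw [Affine.slope_of_Y_ne rfl hy]
    constructor
    · ring
    · rw [div_mul_cancel₀ _ hd]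
      ring
  · have hd : x₁ - x₂ ≠ 0 := sub_ne_zero.2 hx
    rw [Affine.slope_of_X_ne hx]
    constructor
    · rw [div_mul_cancel₀ _ hd]
    · rw [div_mul_eq_mul_div, div_eq_iff hd]
      rw [Affine.equation_iff] at e₁ e₂
      simp only [Affine.negY]
      linear_combination e₁ - e₂

end

section
variable {K k : Type*} [Field K] [Field k] [DecidableEq K] [DecidableEq k]
  (A : ValuationSubring K) (φ : A →+* k) (W : WeierstrassCurve A)

omit [DecidableEq K] in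
theorem quad_mem {c z : K} (hc : c ∈ A) (hz : z ^ 2 + c * z ∈ A) : z ∈ A := by
  by_contra h
  have h1 : z⁻¹ ∈ A := (A.mem_or_inv_mem z).resolve_left h
  have h0 : z ≠ 0 := fun h2 => h (h2 ▸ A.zero_mem)
  refine h ?_
  have h2 : z = (z ^ 2 + c * z) * z⁻¹ - c := by
    field_simp
    ring
  rw [h2]
  exact sub_mem (mul_mem hz h1) hc

omit [DecidableEq K] in
theorem y_mem {x : A} {y : K} (h : (W.map A.subtype).toAffine.Equation (x : K) y) : y ∈ A := by
  rw [Affine.equation_iff] at h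
  refine quad_mem A (c := (W.a₁ : K) * x + W.a₃)
    (add_mem (mul_mem W.a₁.2 x.2) W.a₃.2) ?_
  have h1 : y ^ 2 + ((W.a₁ : K) * x + W.a₃) * y =
      ((x ^ 3 + W.a₂ * x ^ 2 + W.a₄ * x + W.a₆ : A) : K) := by
    push_cast
    have h2 : (W.map A.subtype).a₁ = (W.a₁ : K) := rfl
    have h3 : (W.map A.subtype).a₂ = (W.a₂ : K) := rfl
    have h4 : (W.map A.subtype).a₃ = (W.a₃ : K) := rfl
    have h5 : (W.map A.subtype).a₄ = (W.a₄ : K) := rfl
    have h6 : (W.map A.subtype).a₆ = (W.a₆ : K) := rfl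
    rw [h2, h3, h4, h5, h6] at h
    linear_combination h
  rw [h1]
  exact Subtype.property _

variable {A}

omit [DecidableEq K] in
theorem eq_of_coe {x y : A} (h : (W.map A.subtype).toAffine.Equation (x : K) (y : K)) :
    W.toAffine.Equation x y :=
  (Affine.map_equation (W := W.toAffine) (f := A.subtype) Subtype.val_injective x y).1 h

omit [DecidableEq K] [DecidableEq k] in
theorem nons (hΔ : φ W.Δ ≠ 0) {x y : A} (h : (W.map A.subtype).toAffine.Equation (x : K) (y : K)) :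
    (W.map φ).toAffine.Nonsingular (φ x) (φ y) :=
  (Affine.equation_iff_nonsingular_of_Δ_ne_zero (by
    have := WeierstrassCurve.map_Δ (W := W) (f := φ)
    rw [this]
    exact hΔ)).1 (Affine.Equation.map φ (eq_of_coe W h))

open Classical in
/-- the specialization -/
noncomputable def spFun (hΔ : φ W.Δ ≠ 0) :
    (W.map A.subtype).toAffine.Point → (W.map φ).toAffine.Point
  | .zero => .zero
  | .some x y h => if hx : x ∈ A then
      .some (φ ⟨x, hx⟩) (φ ⟨y, y_mem A W (x := ⟨x, hx⟩) h.1⟩)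
        (nons φ W hΔ (x := ⟨x, hx⟩) (y := ⟨y, y_mem A W (x := ⟨x, hx⟩) h.1⟩) h.1) else .zero

theorem spFun_zero (hΔ : φ W.Δ ≠ 0) : spFun φ W hΔ 0 = 0 := rfl

theorem spFun_good (hΔ : φ W.Δ ≠ 0) (x y : A)
    (h : (W.map A.subtype).toAffine.Nonsingular (x : K) (y : K)) :
    spFun φ W hΔ (.some (x : K) (y : K) h) = .some (φ x) (φ y) (nons φ W hΔ h.1) := by
  simp only [spFun]
  rw [dif_pos x.2]

theorem spFun_bad (hΔ : φ W.Δ ≠ 0) {x y : K}
    (h : (W.map A.subtype).toAffine.Nonsingular x y) (hx : x ∉ A) :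
    spFun φ W hΔ (.some x y h) = 0 := by
  simp only [spFun]
  rw [dif_neg hx]
  rfl

/-- a point which does not specialize to zero has coordinates in `A` -/
theorem good_of_ne (hΔ : φ W.Δ ≠ 0) {P : (W.map A.subtype).toAffine.Point}
    (hP : spFun φ W hΔ P ≠ 0) : ∃ (x y : A) (h : (W.map A.subtype).toAffine.Nonsingular (x : K) (y : K)),
      P = .some (x : K) (y : K) h := by
  rcases P with _ | ⟨x, y, h⟩
  · exact absurd rfl hP
  · by_cases hx : x ∈ A
    · exact ⟨⟨x, hx⟩, ⟨y, y_mem A W (x := ⟨x, hx⟩) h.1⟩, h, rfl⟩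
    · exact absurd (spFun_bad φ W hΔ h hx) hP

theorem spFun_neg (hΔ : φ W.Δ ≠ 0) (P : (W.map A.subtype).toAffine.Point) :
    spFun φ W hΔ (-P) = -spFun φ W hΔ P := by
  rcases P with _ | ⟨x, y, h⟩
  · rfl
  · rw [Affine.Point.neg_some]
    by_cases hx : x ∈ A
    · obtain ⟨x', rfl⟩ : ∃ x' : A, (x' : K) = x := ⟨⟨x, hx⟩, rfl⟩
      obtain ⟨y', rfl⟩ : ∃ y' : A, (y' : K) = y := ⟨⟨y, y_mem A W (x := x') h.1⟩, rfl⟩
      have h1 : (W.map A.subtype).toAffine.negY (x' : K) (y' : K) = ((W.toAffine.negY x' y' : A) : K) :=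
        Affine.map_negY (W' := W.toAffine) (f := A.subtype) x' y'
      have h2 : ∀ (z : K) (hz : (W.map A.subtype).toAffine.Nonsingular (x' : K) z)
          (he : z = ((W.toAffine.negY x' y' : A) : K)),
          spFun φ W hΔ (.some (x' : K) z hz) = -spFun φ W hΔ (.some (x' : K) (y' : K) h) := by
        intro z hz he
        subst he
        rw [spFun_good, spFun_good, Affine.Point.neg_some]
        congr 1
        exact (Affine.map_negY (W' := W.toAffine) (f := φ) x' y').symm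
      exact h2 _ _ h1
    · rw [spFun_bad φ W hΔ _ hx, spFun_bad φ W hΔ h hx]
      rfl

omit [DecidableEq K] [DecidableEq k] in
/-- the two equations of the slope in `A` -/
theorem slope_A {x₁ y₁ x₂ y₂ l : A}
    (s : ((l : K) * ((x₁ : K) - x₂) = (y₁ : K) - y₂) ∧
      (l : K) * ((y₁ : K) - (W.map A.subtype).toAffine.negY (x₂ : K) (y₂ : K)) =
      (x₁ : K) ^ 2 + x₁ * x₂ + (x₂ : K) ^ 2 + (W.map A.subtype).a₂ * (x₁ + x₂) +
        (W.map A.subtype).a₄ - (W.map A.subtype).a₁ * y₁) :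
    φ l * (φ x₁ - φ x₂) = φ y₁ - φ y₂ ∧
    φ l * (φ y₁ - (W.map φ).toAffine.negY (φ x₂) (φ y₂)) =
      (φ x₁) ^ 2 + φ x₁ * φ x₂ + (φ x₂) ^ 2 + (W.map φ).a₂ * (φ x₁ + φ x₂) +
        (W.map φ).a₄ - (W.map φ).a₁ * φ y₁ := by
  obtain ⟨s1, s2⟩ := s
  have t1 : l * (x₁ - x₂) = y₁ - y₂ := by
    apply Subtype.val_injective
    push_cast
    exact s1
  have t2 : l * (y₁ - W.toAffine.negY x₂ y₂) =
      x₁ ^ 2 + x₁ * x₂ + x₂ ^ 2 + W.a₂ * (x₁ + x₂) + W.a₄ - W.a₁ * y₁ := by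
    apply Subtype.val_injective
    push_cast
    have h1 : (W.map A.subtype).toAffine.negY (x₂ : K) (y₂ : K) = ((W.toAffine.negY x₂ y₂ : A) : K) :=
      Affine.map_negY (W' := W.toAffine) (f := A.subtype) x₂ y₂
    rw [h1] at s2
    exact s2
  constructor
  · have := congrArg φ t1
    simpa using this
  · have := congrArg φ t2
    have h1 : (W.map φ).toAffine.negY (φ x₂) (φ y₂) = φ (W.toAffine.negY x₂ y₂) :=
      Affine.map_negY (W' := W.toAffine) (f := φ) x₂ y₂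
    rw [h1]
    simpa using this

theorem add_good (hloc : ∀ a : A, φ a ≠ 0 → IsUnit a) (hΔ : φ W.Δ ≠ 0) {x₁ y₁ x₂ y₂ : A}
    (h₁ : (W.map A.subtype).toAffine.Nonsingular (x₁ : K) (y₁ : K))
    (h₂ : (W.map A.subtype).toAffine.Nonsingular (x₂ : K) (y₂ : K))
    (hne : ¬(φ x₁ = φ x₂ ∧ φ y₁ = (W.map φ).toAffine.negY (φ x₂) (φ y₂))) :
    spFun φ W hΔ (.some (x₁ : K) (y₁ : K) h₁ + .some (x₂ : K) (y₂ : K) h₂) =
      spFun φ W hΔ (.some (x₁ : K) (y₁ : K) h₁) + spFun φ W hΔ (.some (x₂ : K) (y₂ : K) h₂) := by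
  have hnK : (W.map A.subtype).toAffine.negY (x₂ : K) (y₂ : K) = ((W.toAffine.negY x₂ y₂ : A) : K) :=
    Affine.map_negY (W' := W.toAffine) (f := A.subtype) x₂ y₂
  have hnk : (W.map φ).toAffine.negY (φ x₂) (φ y₂) = φ (W.toAffine.negY x₂ y₂) :=
    Affine.map_negY (W' := W.toAffine) (f := φ) x₂ y₂
  have hxy : ¬((x₁ : K) = x₂ ∧ (y₁ : K) = (W.map A.subtype).toAffine.negY (x₂ : K) (y₂ : K)) := by
    rintro ⟨ha, hb⟩
    rw [hnK] at hb
    have ha' := Subtype.val_injective ha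
    have hb' := Subtype.val_injective hb
    exact hne ⟨by rw [ha'], by rw [hb', hnk]⟩
  have hs := slope_two (W.map A.subtype) h₁.1 h₂.1 hxy
  obtain ⟨l, hl⟩ : ∃ l : A, (l : K) = (W.map A.subtype).toAffine.slope (x₁ : K) x₂ y₁ y₂ := by
    suffices h : (W.map A.subtype).toAffine.slope (x₁ : K) x₂ y₁ y₂ ∈ A from ⟨⟨_, h⟩, rfl⟩
    have aux : ∀ {u : A} {z w : K}, φ u ≠ 0 → w ∈ A → z * (u : K) = w → z ∈ A := by
      intro u z w hu hw hz
      obtain ⟨v, hv⟩ := hloc u hu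
      have h1 : (u : K) * ((v⁻¹ : Aˣ) : A) = 1 := by
        rw [← hv]
        have := v.mul_inv
        exact_mod_cast congrArg (Subtype.val) this
      have h2 : z = w * ((v⁻¹ : Aˣ) : A) := by
        rw [← hz, mul_assoc, h1, mul_one]
      rw [h2]
      exact mul_mem hw (Subtype.property _)
    by_cases hx : φ x₁ = φ x₂
    · have hy : φ (y₁ - W.toAffine.negY x₂ y₂) ≠ 0 := by
        rw [map_sub, sub_ne_zero, ← hnk]
        exact fun h => hne ⟨hx, h⟩
      refine aux (w := ((x₁ ^ 2 + x₁ * x₂ + x₂ ^ 2 + W.a₂ * (x₁ + x₂) + W.a₄ - W.a₁ * y₁ : A) : K))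
        hy (Subtype.property _) ?_
      push_cast
      rw [← hnK]
      exact hs.2
    · have hx' : φ (x₁ - x₂) ≠ 0 := by
        rw [map_sub, sub_ne_zero]
        exact hx
      refine aux (w := ((y₁ - y₂ : A) : K)) hx' (Subtype.property _) ?_
      push_cast
      exact hs.1
  rw [← hl] at hs
  have ht := slope_A φ W hs
  have hm := slope_two (W.map φ) (nons φ W hΔ h₁.1).1 (nons φ W hΔ h₂.1).1 hne
  have hlm : φ l = (W.map φ).toAffine.slope (φ x₁) (φ x₂) (φ y₁) (φ y₂) := by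
    by_cases hx : φ x₁ = φ x₂
    · have hy : φ y₁ - (W.map φ).toAffine.negY (φ x₂) (φ y₂) ≠ 0 :=
        sub_ne_zero.2 fun h => hne ⟨hx, h⟩
      exact mul_right_cancel₀ hy (ht.2.trans hm.2.symm)
    · exact mul_right_cancel₀ (sub_ne_zero.2 hx) (ht.1.trans hm.1.symm)
  have key : ∀ (X Y : K) (h : (W.map A.subtype).toAffine.Nonsingular X Y),
      X = ((W.toAffine.addX x₁ x₂ l : A) : K) → Y = ((W.toAffine.addY x₁ x₂ y₁ l : A) : K) →
      spFun φ W hΔ (.some X Y h) =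
        spFun φ W hΔ (.some (x₁ : K) (y₁ : K) h₁) + spFun φ W hΔ (.some (x₂ : K) (y₂ : K) h₂) := by
    intro X Y h hX hY
    subst hX hY
    rw [spFun_good, spFun_good, spFun_good, Affine.Point.add_some hne]
    rw [Affine.Point.some.injEq]
    constructor
    · rw [← hlm]
      exact (Affine.map_addX (W' := W.toAffine) (f := φ) x₁ x₂ l).symm
    · rw [← hlm]
      exact (Affine.map_addY (W' := W.toAffine) (f := φ) x₁ y₁ x₂ l).symm
  rw [Affine.Point.add_some hxy]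
  refine key _ _ _ ?_ ?_
  · rw [← hl]
    exact Affine.map_addX (W' := W.toAffine) (f := A.subtype) x₁ x₂ l
  · rw [← hl]
    exact Affine.map_addY (W' := W.toAffine) (f := A.subtype) x₁ y₁ x₂ l

theorem add_opp (hΔ : φ W.Δ ≠ 0) {x₁ y₁ x₂ y₂ : A}
    (h₁ : (W.map A.subtype).toAffine.Nonsingular (x₁ : K) (y₁ : K))
    (h₂ : (W.map A.subtype).toAffine.Nonsingular (x₂ : K) (y₂ : K))
    (hx : φ x₁ = φ x₂) (hy : φ y₁ = (W.map φ).toAffine.negY (φ x₂) (φ y₂)) :
    spFun φ W hΔ (.some (x₁ : K) (y₁ : K) h₁ + .some (x₂ : K) (y₂ : K) h₂) = 0 := by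
  by_cases hxy : ((x₁ : K) = x₂ ∧ (y₁ : K) = (W.map A.subtype).toAffine.negY (x₂ : K) (y₂ : K))
  · rw [Affine.Point.add_of_Y_eq hxy.1 hxy.2]
    rfl
  · rw [Affine.Point.add_some hxy]
    apply spFun_bad
    intro hX
    have hs := slope_two (W.map A.subtype) h₁.1 h₂.1 hxy
    have hlA : (W.map A.subtype).toAffine.slope (x₁ : K) x₂ y₁ y₂ ∈ A := by
      refine quad_mem A (c := (W.a₁ : K)) W.a₁.2 ?_
      have h1 : (W.map A.subtype).toAffine.slope (x₁ : K) x₂ y₁ y₂ ^ 2 +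
          (W.a₁ : K) * (W.map A.subtype).toAffine.slope (x₁ : K) x₂ y₁ y₂ =
          (W.map A.subtype).toAffine.addX (x₁ : K) x₂
            ((W.map A.subtype).toAffine.slope (x₁ : K) x₂ y₁ y₂) + ((W.a₂ + x₁ + x₂ : A) : K) := by
        simp only [Affine.addX]
        have h2 : (W.map A.subtype).a₁ = (W.a₁ : K) := rfl
        have h3 : (W.map A.subtype).a₂ = (W.a₂ : K) := rfl
        rw [h2, h3]
        push_cast
        ring
      rw [h1]
      exact add_mem hX (Subtype.property _)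
    obtain ⟨l, hl⟩ : ∃ l : A, (l : K) = (W.map A.subtype).toAffine.slope (x₁ : K) x₂ y₁ y₂ :=
      ⟨⟨_, hlA⟩, rfl⟩
    rw [← hl] at hs
    obtain ⟨t1, t2⟩ := slope_A φ W hs
    rw [hx, sub_self, mul_zero] at t1
    have hyy : φ y₁ = φ y₂ := (sub_eq_zero.1 t1.symm)
    rw [← hy, sub_self, mul_zero] at t2
    have hn := ((W.map φ).toAffine.nonsingular_iff _ _).1 (nons φ W hΔ h₁.1)
    rcases hn.2 with h3 | h3
    · apply h3
      rw [hx] at t2 ⊢
      linear_combination t2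
    · apply h3
      rw [← hyy, ← hx] at hy
      exact hy

/-- the kernel is closed under addition -/
theorem add_ker (hloc : ∀ a : A, φ a ≠ 0 → IsUnit a) (hΔ : φ W.Δ ≠ 0)
    {P Q : (W.map A.subtype).toAffine.Point}
    (hP : spFun φ W hΔ P = 0) (hQ : spFun φ W hΔ Q = 0) : spFun φ W hΔ (P + Q) = 0 := by
  have bad : ∀ {x y : K} {h : (W.map A.subtype).toAffine.Nonsingular x y},
      spFun φ W hΔ (.some x y h) = 0 → x ∉ A := by
    intro x y h h0 hx
    obtain ⟨x', rfl⟩ : ∃ x' : A, (x' : K) = x := ⟨⟨x, hx⟩, rfl⟩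
    obtain ⟨y', rfl⟩ : ∃ y' : A, (y' : K) = y := ⟨⟨y, y_mem A W (x := x') h.1⟩, rfl⟩
    rw [spFun_good] at h0
    exact Affine.Point.some_ne_zero _ h0
  have inv : ∀ {x : K}, x ∉ A → ∃ p : A, (p : K) * x = 1 ∧ φ p = 0 := by
    intro x hx
    have h1 : x⁻¹ ∈ A := (A.mem_or_inv_mem x).resolve_left hx
    have h0 : x ≠ 0 := fun h2 => hx (h2 ▸ A.zero_mem)
    refine ⟨⟨x⁻¹, h1⟩, inv_mul_cancel₀ h0, ?_⟩
    by_contra h2
    obtain ⟨v, hv⟩ := hloc _ h2
    apply hx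
    have h3 : (x⁻¹ : K) * ((v⁻¹ : Aˣ) : A) = 1 := by
      have h4 : ((v : A) : K) = x⁻¹ := by rw [hv]
      rw [← h4]
      have := v.mul_inv
      exact_mod_cast congrArg (Subtype.val) this
    have h5 : x = ((v⁻¹ : Aˣ) : A) := by
      have : x * (x⁻¹ * ((v⁻¹ : Aˣ) : A)) = ((v⁻¹ : Aˣ) : A) := by
        rw [← mul_assoc, mul_inv_cancel₀ h0, one_mul]
      rw [h3, mul_one] at this
      exact this
    rw [h5]
    exact Subtype.property _
  by_contra hR
  obtain ⟨x₃, y₃, h₃, hR'⟩ := good_of_ne φ W hΔ hR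
  rcases P with _ | ⟨x₁, y₁, h₁⟩
  · rw [← Affine.Point.zero_def, zero_add] at hR
    exact hR hQ
  rcases Q with _ | ⟨x₂, y₂, h₂⟩
  · rw [← Affine.Point.zero_def, add_zero] at hR
    exact hR hP
  obtain ⟨p, hp, hp0⟩ := inv (bad hP)
  obtain ⟨q, hq, hq0⟩ := inv (bad hQ)
  obtain ⟨c, hc, hv⟩ := par (W.map A.subtype) (.some x₁ y₁ h₁) (.some x₂ y₂ h₂)
  rw [hR'] at hv
  have hroot : ∀ R' : (W.map A.subtype).toAffine.Point,
      (x₃ : K) ^ 2 * (Affine.Point.some (x₃ : K) (y₃ : K) h₃).sym2x R' 2 -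
        (x₃ : K) * (Affine.Point.some (x₃ : K) (y₃ : K) h₃).sym2x R' 1 +
        (Affine.Point.some (x₃ : K) (y₃ : K) h₃).sym2x R' 0 = 0 := by
    intro R'
    rcases R' with _ | ⟨x₄, y₄, h₄⟩
    · rw [← Affine.Point.zero_def, Affine.Point.sym2x_some_zero]
      simp
    · rw [Affine.Point.sym2x_some_some]
      simp
      ring
  have h0 := hv 0
  have h1 := hv 1
  have h2 := hv 2
  rw [Affine.Point.sym2x_some_some] at h0 h1 h2
  have hr := hroot (.some x₁ y₁ h₁ - .some x₂ y₂ h₂)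
  have e0 := (asm_zero (W.map A.subtype) ![x₁ * x₂, x₁ + x₂, 1]).symm.trans h0
  have e1 := (asm_one (W.map A.subtype) ![x₁ * x₂, x₁ + x₂, 1]).symm.trans h1
  have e2 := (asm_two (W.map A.subtype) ![x₁ * x₂, x₁ + x₂, 1]).symm.trans h2
  simp only [Matrix.cons_val_zero, Matrix.cons_val_one, Matrix.cons_val] at e0 e1 e2
  generalize (Affine.Point.some (x₃ : K) (y₃ : K) h₃).sym2x (.some x₁ y₁ h₁ - .some x₂ y₂ h₂) 0 = v0 at *
  generalize (Affine.Point.some (x₃ : K) (y₃ : K) h₃).sym2x (.some x₁ y₁ h₁ - .some x₂ y₂ h₂) 1 = v1 at *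
  generalize (Affine.Point.some (x₃ : K) (y₃ : K) h₃).sym2x (.some x₁ y₁ h₁ - .some x₂ y₂ h₂) 2 = v2 at *
  have hb4 : (W.map A.subtype).b₄ = (W.b₄ : K) := WeierstrassCurve.map_b₄ (W := W) (f := A.subtype)
  have hb2 : (W.map A.subtype).b₂ = (W.b₂ : K) := WeierstrassCurve.map_b₂ (W := W) (f := A.subtype)
  have hb6 : (W.map A.subtype).b₆ = (W.b₆ : K) := WeierstrassCurve.map_b₆ (W := W) (f := A.subtype)
  have hb8 : (W.map A.subtype).b₈ = (W.b₈ : K) := WeierstrassCurve.map_b₈ (W := W) (f := A.subtype)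
  rw [hb4, hb6, hb8] at e0
  rw [hb2, hb4, hb6] at e1
  -- the equation in `K`
  have hK : (x₃ : K) ^ 2 * ((x₁ + x₂) ^ 2 - 4 * (x₁ * x₂)) -
      (x₃ : K) * (2 * (x₁ + x₂) * (x₁ * x₂) + W.b₂ * (x₁ * x₂) + W.b₄ * (x₁ + x₂) + W.b₆) +
      ((x₁ * x₂) ^ 2 - W.b₄ * (x₁ * x₂) - W.b₆ * (x₁ + x₂) - W.b₈) = 0 := by
    linear_combination (x₃ : K) ^ 2 * e2 - (x₃ : K) * e1 + e0 + c * hr
  have hA : (x₃ : K) ^ 2 * (((p : K) + q) ^ 2 - 4 * (p * q)) -
      (x₃ : K) * (2 * ((p : K) + q) + W.b₂ * (p * q) + W.b₄ * (p + q) * (p * q) +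
        W.b₆ * (p * q) ^ 2) +
      (1 - W.b₄ * ((p : K) * q) - W.b₆ * (p + q) * (p * q) - W.b₈ * (p * q) ^ 2) = 0 := by
    have hpq : ((p : K) * q) * (x₁ * x₂) = 1 := by
      linear_combination (q * x₂ : K) * hp + hq
    have h5 : ((p : K) * q) * (x₁ + x₂) = p + q := by
      linear_combination (q : K) * hp + (p : K) * hq
    have h6 : ((p : K) * q) ^ 2 * ((x₃ : K) ^ 2 * ((x₁ + x₂) ^ 2 - 4 * (x₁ * x₂)) -
      (x₃ : K) * (2 * (x₁ + x₂) * (x₁ * x₂) + W.b₂ * (x₁ * x₂) + W.b₄ * (x₁ + x₂) + W.b₆) +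
      ((x₁ * x₂) ^ 2 - W.b₄ * (x₁ * x₂) - W.b₆ * (x₁ + x₂) - W.b₈)) =
      (x₃ : K) ^ 2 * ((((p : K) * q) * (x₁ + x₂)) ^ 2 - 4 * (((p : K) * q) * (x₁ * x₂)) * (p * q)) -
      (x₃ : K) * (2 * (((p : K) * q) * (x₁ + x₂)) * (((p : K) * q) * (x₁ * x₂)) +
        W.b₂ * (((p : K) * q) * (x₁ * x₂)) * (p * q) +
        W.b₄ * (((p : K) * q) * (x₁ + x₂)) * (p * q) + W.b₆ * (p * q) ^ 2) +
      ((((p : K) * q) * (x₁ * x₂)) ^ 2 - W.b₄ * (((p : K) * q) * (x₁ * x₂)) * (p * q) -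
        W.b₆ * (((p : K) * q) * (x₁ + x₂)) * (p * q) - W.b₈ * (p * q) ^ 2) := by
      ring
    rw [hK, mul_zero, hpq, h5] at h6
    linear_combination -h6
  have hA' : x₃ ^ 2 * ((p + q) ^ 2 - 4 * (p * q)) -
      x₃ * (2 * (p + q) + W.b₂ * (p * q) + W.b₄ * (p + q) * (p * q) + W.b₆ * (p * q) ^ 2) +
      (1 - W.b₄ * (p * q) - W.b₆ * (p + q) * (p * q) - W.b₈ * (p * q) ^ 2) = 0 := by
    apply Subtype.val_injective
    push_cast
    exact hA
  have hf := congrArg φ hA'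
  simp [hp0, hq0] at hf

theorem sp_add (hloc : ∀ a : A, φ a ≠ 0 → IsUnit a) (hΔ : φ W.Δ ≠ 0)
    (P Q : (W.map A.subtype).toAffine.Point) :
    spFun φ W hΔ (P + Q) = spFun φ W hΔ P + spFun φ W hΔ Q := by
  -- both good
  have gg : ∀ P Q : (W.map A.subtype).toAffine.Point, spFun φ W hΔ P ≠ 0 → spFun φ W hΔ Q ≠ 0 →
      spFun φ W hΔ (P + Q) = spFun φ W hΔ P + spFun φ W hΔ Q := by
    intro P Q hP hQ
    obtain ⟨x₁, y₁, h₁, rfl⟩ := good_of_ne φ W hΔ hP
    obtain ⟨x₂, y₂, h₂, rfl⟩ := good_of_ne φ W hΔ hQ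
    by_cases h : φ x₁ = φ x₂ ∧ φ y₁ = (W.map φ).toAffine.negY (φ x₂) (φ y₂)
    · rw [add_opp φ W hΔ h₁ h₂ h.1 h.2, spFun_good, spFun_good, Affine.Point.add_of_Y_eq h.1 h.2]
    · exact add_good φ W hloc hΔ h₁ h₂ h
  -- one in the kernel
  have kg : ∀ P Q : (W.map A.subtype).toAffine.Point, spFun φ W hΔ P = 0 →
      spFun φ W hΔ (P + Q) = spFun φ W hΔ Q := by
    intro P Q hP
    by_cases hQ : spFun φ W hΔ Q = 0
    · rw [hQ]
      exact add_ker φ W hloc hΔ hP hQ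
    · by_cases hR : spFun φ W hΔ (P + Q) = 0
      · exfalso
        apply hQ
        have h1 : Q = (P + Q) + (-P) := by abel
        rw [h1]
        refine add_ker φ W hloc hΔ hR ?_
        rw [spFun_neg, hP, neg_zero]
      · have h1 : P = (P + Q) + (-Q) := by abel
        have h2 : spFun φ W hΔ (-Q) ≠ 0 := by
          rw [spFun_neg]
          exact neg_ne_zero.2 hQ
        have h3 := gg (P + Q) (-Q) hR h2
        rw [← h1, hP, spFun_neg] at h3
        exact (add_neg_eq_zero.1 h3.symm)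
  by_cases hP : spFun φ W hΔ P = 0
  · rw [kg P Q hP, hP, zero_add]
  · by_cases hQ : spFun φ W hΔ Q = 0
    · rw [add_comm P Q, kg Q P hQ, hQ, add_zero]
    · exact gg P Q hP hQ

end

section
variable {K k : Type*} [Field K] [Field k] [DecidableEq K] [DecidableEq k]
  (A : ValuationSubring K) (φ : A →+* k) (W : WeierstrassCurve A)

/-- the specialization homomorphism, general form -/
theorem sp_gen (hloc : ∀ a : A, φ a ≠ 0 → IsUnit a) (Wk : WeierstrassCurve k)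
    (hk : W.map φ = Wk) (hΔ : Wk.Δ ≠ 0) :
    ∃ sp : (W.map A.subtype).toAffine.Point →+ Wk.toAffine.Point,
      (∀ (x y : A) (h : (W.map A.subtype).toAffine.Nonsingular (x : K) (y : K)),
        ∃ h' : Wk.toAffine.Nonsingular (φ x) (φ y),
          sp (.some (x : K) (y : K) h) = .some (φ x) (φ y) h') ∧
      (∀ (x y : K) (h : (W.map A.subtype).toAffine.Nonsingular x y), x ∉ A →
        sp (.some x y h) = 0) := by
  subst hk
  have hΔ' : φ W.Δ ≠ 0 := by
    have := WeierstrassCurve.map_Δ (W := W) (f := φ)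
    rw [← this]
    exact hΔ
  refine ⟨AddMonoidHom.mk' (spFun φ W hΔ') (sp_add φ W hloc hΔ'), ?_, ?_⟩
  · intro x y h
    exact ⟨nons φ W hΔ' h.1, spFun_good φ W hΔ' x y h⟩
  · intro x y h hx
    exact spFun_bad φ W hΔ' h hx

end

section
open Polynomial Pool.Agent.NJ

/-- the rational functions without a pole at `t` -/
noncomputable def regA (t : ℚ) : ValuationSubring (RatFunc ℚ) where
  carrier := {f | f.denom.eval t ≠ 0}
  mul_mem' := by
    intro a b ha hb h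
    have h1 := RatFunc.denom_mul_dvd a b
    obtain ⟨c, hc⟩ := h1
    have h2 := congrArg (Polynomial.eval t) hc
    rw [Polynomial.eval_mul, Polynomial.eval_mul, h, zero_mul] at h2
    exact mul_ne_zero ha hb h2
  one_mem' := by
    show (RatFunc.denom (1 : RatFunc ℚ)).eval t ≠ 0
    rw [RatFunc.denom_one]
    simp
  add_mem' := by
    intro a b ha hb h
    have h1 := RatFunc.denom_add_dvd a b
    obtain ⟨c, hc⟩ := h1
    have h2 := congrArg (Polynomial.eval t) hc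
    rw [Polynomial.eval_mul, Polynomial.eval_mul, h, zero_mul] at h2
    exact mul_ne_zero ha hb h2
  zero_mem' := by
    show (RatFunc.denom (0 : RatFunc ℚ)).eval t ≠ 0
    rw [RatFunc.denom_zero]
    simp
  neg_mem' := by
    intro a ha h
    have h1 : (-a) = (RatFunc.C (-1)) * a := by
      simp
    have h2 := RatFunc.denom_mul_dvd (RatFunc.C (-1)) a
    rw [← h1, RatFunc.denom_C, one_mul] at h2
    obtain ⟨c, hc⟩ := h2
    have h3 := congrArg (Polynomial.eval t) hc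
    rw [Polynomial.eval_mul, h, zero_mul] at h3
    exact ha h3
  mem_or_inv_mem' := by
    intro a
    by_cases h : a.denom.eval t = 0
    · right
      have hn : a.num.eval t ≠ 0 := by
        intro hn
        obtain ⟨u, v, huv⟩ := RatFunc.isCoprime_num_denom a
        have := congrArg (Polynomial.eval t) huv
        rw [Polynomial.eval_add, Polynomial.eval_mul, Polynomial.eval_mul, h, hn] at this
        simp at this
      have ha : a ≠ 0 := by
        rintro rfl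
        rw [RatFunc.num_zero] at hn
        simp at hn
      obtain ⟨c, hc⟩ := RatFunc.denom_inv_dvd ha
      intro h2
      have h3 := congrArg (Polynomial.eval t) hc
      rw [Polynomial.eval_mul, h2, zero_mul] at h3
      exact hn h3
    · exact Or.inl h

theorem mem_regA {t : ℚ} {f : RatFunc ℚ} : f ∈ regA t ↔ f.denom.eval t ≠ 0 := Iff.rfl

theorem ev_eq (t : ℚ) (f : RatFunc ℚ) : ev t f = RatFunc.eval (RingHom.id ℚ) t f := by
  simp [ev, RatFunc.eval]

/-- the evaluation at `t` -/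
noncomputable def phiT (t : ℚ) : regA t →+* ℚ where
  toFun f := ev t f
  map_one' := by
    rw [ev_eq]
    exact RatFunc.eval_one (RingHom.id ℚ) t
  map_zero' := by
    rw [ev_eq]
    exact RatFunc.eval_zero (RingHom.id ℚ) t
  map_add' := by
    intro a b
    rw [ev_eq, ev_eq, ev_eq]
    exact RatFunc.eval_add (RingHom.id ℚ) t
      (by rw [Polynomial.eval₂_id]; exact a.2) (by rw [Polynomial.eval₂_id]; exact b.2)
  map_mul' := by
    intro a b
    rw [ev_eq, ev_eq, ev_eq]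
    exact RatFunc.eval_mul (RingHom.id ℚ) t
      (by rw [Polynomial.eval₂_id]; exact a.2) (by rw [Polynomial.eval₂_id]; exact b.2)

theorem phiT_apply (t : ℚ) (f : regA t) : phiT t f = ev t f := rfl

theorem phiT_loc (t : ℚ) (a : regA t) (h : phiT t a ≠ 0) : IsUnit a := by
  rw [phiT_apply, ev] at h
  have hn : (a : RatFunc ℚ).num.eval t ≠ 0 := fun h1 => h (by rw [h1, zero_div])
  have ha : (a : RatFunc ℚ) ≠ 0 := by
    intro h0
    rw [h0, RatFunc.num_zero] at hn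
    simp at hn
  have hinv : (a : RatFunc ℚ)⁻¹ ∈ regA t := by
    obtain ⟨c, hc⟩ := RatFunc.denom_inv_dvd ha
    intro h2
    have h3 := congrArg (Polynomial.eval t) hc
    rw [Polynomial.eval_mul, h2, zero_mul] at h3
    exact hn h3
  refine IsUnit.of_mul_eq_one ⟨(a : RatFunc ℚ)⁻¹, hinv⟩ ?_
  apply Subtype.val_injective
  exact mul_inv_cancel₀ ha

/-- polynomials have no poles -/
noncomputable def psiT (t : ℚ) : ℚ[X] →+* regA t :=
  (algebraMap ℚ[X] (RatFunc ℚ)).codRestrict (regA t).toSubring (by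
    intro p
    show (algebraMap ℚ[X] (RatFunc ℚ) p).denom.eval t ≠ 0
    rw [RatFunc.denom_algebraMap]
    simp)

theorem phi_psi (t : ℚ) (p : ℚ[X]) : phiT t (psiT t p) = p.eval t := by
  rw [phiT_apply, ev_eq]
  have h : ((psiT t p : regA t) : RatFunc ℚ) = algebraMap ℚ[X] (RatFunc ℚ) p := rfl
  rw [h, RatFunc.eval_algebraMap]
  simp

/-- Row SP. -/
theorem sp : ∀ [DecidableEq ℚ] [DecidableEq (RatFunc ℚ)] (E : WeierstrassCurve ℚ[X]) (t : ℚ),
    (fib E t).Δ ≠ 0 → ∃ sp : (gen E).toAffine.Point →+ (fib E t).toAffine.Point, IsSp E t sp := by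
  intro _ _ E t hΔ
  have hk : (E.map (psiT t)).map (phiT t) = fib E t := by
    have h : ∀ p : ℚ[X], phiT t (psiT t p) = (evalRingHom t) p := fun p => phi_psi t p
    ext
    · exact h _
    · exact h _
    · exact h _
    · exact h _
    · exact h _
  obtain ⟨s, h1, h2⟩ := sp_gen (regA t) (phiT t) (E.map (psiT t)) (phiT_loc t) (fib E t) hk hΔ
  refine ⟨s, ?_, ?_⟩
  · intro x y h hx
    have hy : y ∈ regA t := y_mem (regA t) (E.map (psiT t)) (x := ⟨x, hx⟩) h.1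
    obtain ⟨h', he⟩ := h1 ⟨x, hx⟩ ⟨y, hy⟩ h
    exact ⟨h', he⟩
  · intro x y h hx
    exact h2 x y h (fun hm => hm hx)

end

end Pool.Agent.GT.F.H81
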